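import Mathlib

/-!
# Exceptional tuples for `z^d + t` (MP_13ba09_nt)

Besides `(-t, 1, 1, 2)` and `(t + 1, 1, 2, 2)` there are infinitely many exceptional tuples
`(x, 1, 1, 2)` and infinitely many exceptional tuples `(x, 1, 2, 2)`;
for instance `(t / (t - 1), 1, 1, 2)` and `(-(t + 1) / t, 1, 2, 2)`.

The point: `W(z) = z^2 - σ z + π` satisfies `W(π / (σ - z)) = π W(z) / (σ - z)^2`; for
`(σ, π) = (1, t)` its zeros are the places where `z` is fixed, for `(σ, π) = (-1, t + 1)` those
where `z` has formal period two.  Starting from `z = 0` one obtains rational functions `z_k` with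
`W(z_k) = π^k / V_k^2`, and `x = - z_k` is exceptional.
-/

open Polynomial

universe u

namespace Pool.Agent.Results.MP_13ba09_nt.InfinitelyMany

/-- `y` has portrait `(M, N)` for `f`: `f^M(y)` is periodic of exact period `N`, and `M` is minimal
with this property. -/
def HasPortrait {α : Type u} (f : α → α) (y : α) (M N : ℕ) : Prop :=
  f^[M + N] y = f^[M] y ∧ (∀ n : ℕ, 0 < n → n < N → f^[M + n] y ≠ f^[M] y) ∧
    (M = 0 ∨ f^[M - 1] y ∉ Function.periodicPts f)

/-- `(x, M, N, d)` is exceptional: `x` is a nonconstant rational function, `N ≥ 1`, `d ≥ 2`, and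
for no `c` at which `x` is regular does the value `x(c)` have portrait `(M, N)` for
`z ↦ z ^ d + c`. -/
def Exceptional (K : Type u) [Field K] (x : RatFunc K) (M N d : ℕ) : Prop :=
  (¬ ∃ a : K, x = RatFunc.C a) ∧ 1 ≤ N ∧ 2 ≤ d ∧
    ¬ ∃ c : K, x.denom.eval c ≠ 0 ∧
      HasPortrait (fun z : K => z ^ d + c) (x.eval (RingHom.id K) c) M N

section

variable {K : Type u} [Field K]

/-- The Lucas-type sequence `V_0 = 0`, `V_1 = 1`, `V_{k+2} = σ V_{k+1} - π V_k`. -/
def V {R : Type u} [CommRing R] (σ π : R) : ℕ → R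
  | 0 => 0
  | 1 => 1
  | (k + 2) => σ * V σ π (k + 1) - π * V σ π k

theorem cassini {R : Type u} [CommRing R] (σ π : R) (k : ℕ) :
    V σ π (k + 1) ^ 2 - σ * V σ π (k + 1) * V σ π k + π * V σ π k ^ 2 = π ^ k := by
  induction k with
  | zero => simp [V]
  | succ k ih =>
    have h : V σ π (k + 1 + 1) = σ * V σ π (k + 1) - π * V σ π k := rfl
    rw [h]
    linear_combination π * ih

/-- evaluation commutes with the recursion -/
theorem eval_V (σ π : K[X]) (c : K) (k : ℕ) :
    (V σ π k).eval c = V (σ.eval c) (π.eval c) k := by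
  induction k using Nat.strong_induction_on with
  | _ k ih =>
    match k with
    | 0 => simp [V]
    | 1 => simp [V]
    | (k + 2) => simp [V, ih k (by omega), ih (k + 1) (by omega)]

/-- When `π = 0`, `V_{k+1} = σ^k`. -/
theorem V_zero (σ : K) (k : ℕ) : V σ 0 (k + 1) = σ ^ k := by
  induction k with
  | zero => simp [V]
  | succ k ih => rw [V, ih]; ring

/-- The rational function `x_k = - π V_{k+1} / V_{k+2}`. -/
noncomputable def xk (σ π : K[X]) (k : ℕ) : RatFunc K :=
  algebraMap K[X] (RatFunc K) (-(π * V σ π (k + 1))) / algebraMap K[X] (RatFunc K) (V σ π (k + 2))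

theorem V_ne_zero (s : K) (hs : s ≠ 0) (π : K[X]) (c₀ : K) (h0 : π.eval c₀ = 0) (k : ℕ) :
    V (C s) π (k + 1) ≠ 0 := by
  intro h
  have h1 := eval_V (C s) π c₀ (k + 1)
  rw [h, h0, eval_zero, eval_C, V_zero] at h1
  exact pow_ne_zero k hs h1.symm

/-- Cross-multiplied description of `x_k`. -/
theorem xk_num_denom (s : K) (hs : s ≠ 0) (π : K[X]) (c₀ : K) (h0 : π.eval c₀ = 0) (k : ℕ) :
    (xk (C s) π k).num * V (C s) π (k + 2) =
      -(π * V (C s) π (k + 1)) * (xk (C s) π k).denom := by
  have hV : algebraMap K[X] (RatFunc K) (V (C s) π (k + 2)) ≠ 0 := by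
    rw [Ne, FaithfulSMul.algebraMap_eq_zero_iff]
    exact V_ne_zero s hs π c₀ h0 (k + 1)
  have hd : algebraMap K[X] (RatFunc K) (xk (C s) π k).denom ≠ 0 := by
    rw [Ne, FaithfulSMul.algebraMap_eq_zero_iff]
    exact RatFunc.denom_ne_zero _
  have h := RatFunc.num_div_denom (xk (C s) π k)
  conv_rhs at h => rw [xk]
  rw [div_eq_div_iff hd hV, ← map_mul, ← map_mul] at h
  exact RatFunc.algebraMap_injective K h

/-- The key computation: at a place `c` where `x_k` is regular, `y = x_k(c)` can only be a zero of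
`y^2 + σ y + π(c)` if `π(c) = 0` and `y = 0`. -/
theorem key (s : K) (hs : s ≠ 0) (π : K[X]) (c₀ : K) (h0 : π.eval c₀ = 0) (k : ℕ) (c : K)
    (hc : (xk (C s) π k).denom.eval c ≠ 0)
    (hy : (xk (C s) π k).eval (RingHom.id K) c ^ 2 + s * (xk (C s) π k).eval (RingHom.id K) c
      + π.eval c = 0) :
    π.eval c = 0 ∧ (xk (C s) π k).eval (RingHom.id K) c = 0 := by
  set y := (xk (C s) π k).eval (RingHom.id K) c with hydef
  have hyd : y * (xk (C s) π k).denom.eval c = (xk (C s) π k).num.eval c := by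
    rw [hydef, RatFunc.eval, eval₂_id, eval₂_id]
    field_simp
  have h1 := congrArg (Polynomial.eval c) (xk_num_denom s hs π c₀ h0 k)
  rw [eval_mul, eval_mul, eval_neg, eval_mul, eval_V, eval_V, eval_C, ← hyd] at h1
  set p := π.eval c with hp
  set A := V s p (k + 1) with hA
  set B := V s p (k + 2) with hB
  have hyB : y * B = -(p * A) := by
    have : (xk (C s) π k).denom.eval c * (y * B - -(p * A)) = 0 := by
      linear_combination h1
    rcases mul_eq_zero.mp this with h | h
    · exact absurd h hc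
    · exact sub_eq_zero.mp h
  have hcas : B ^ 2 - s * B * A + p * A ^ 2 = p ^ (k + 1) := cassini s p (k + 1)
  have hpz : p = 0 := by
    have h2 : (y ^ 2 + s * y + p) * B ^ 2 = p * p ^ (k + 1) := by
      rw [← hcas]
      linear_combination (y * B - p * A + s * B) * hyB
    rw [hy, zero_mul] at h2
    rcases mul_eq_zero.mp h2.symm with h | h
    · exact h
    · exact pow_eq_zero_iff (by omega) |>.mp h
  refine ⟨hpz, ?_⟩
  have hB0 : B ≠ 0 := by
    rw [hB, hpz, V_zero]
    exact pow_ne_zero _ hs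
  have : y * B = 0 := by rw [hyB, hpz]; ring
  rcases mul_eq_zero.mp this with h | h
  · exact h
  · exact absurd h hB0

theorem xk_nonconst (s : K) (hs : s ≠ 0) (π : K[X]) (c₀ : K) (h0 : π.eval c₀ = 0) (hπ : π ≠ 0)
    (k : ℕ) : ¬ ∃ a : K, xk (C s) π k = RatFunc.C a := by
  rintro ⟨a, ha⟩
  have hV : algebraMap K[X] (RatFunc K) (V (C s) π (k + 2)) ≠ 0 := by
    rw [Ne, FaithfulSMul.algebraMap_eq_zero_iff]
    exact V_ne_zero s hs π c₀ h0 (k + 1)
  rw [xk, ← RatFunc.algebraMap_C, div_eq_iff hV, ← map_mul] at ha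
  have h := RatFunc.algebraMap_injective K ha
  have h1 := congrArg (Polynomial.eval c₀) h
  rw [eval_neg, eval_mul, h0, eval_mul, eval_V, eval_V, h0, eval_C, eval_C, V_zero, V_zero,
    zero_mul, neg_zero] at h1
  rcases mul_eq_zero.mp h1.symm with h2 | h2
  · rw [h2, map_zero, zero_mul, neg_eq_zero] at h
    rcases mul_eq_zero.mp h with h3 | h3
    · exact hπ h3
    · exact V_ne_zero s hs π c₀ h0 k h3
  · exact pow_ne_zero _ hs h2

theorem cross_ne (s : K) (hs : s ≠ 0) (π : K[X]) (c₀ : K) (h0 : π.eval c₀ = 0) (hπ : π ≠ 0)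
    (m k : ℕ) :
    V (C s) π (k + 1) * V (C s) π (k + m + 1 + 2) ≠
      V (C s) π (k + m + 1 + 1) * V (C s) π (k + 2) := by
  induction k with
  | zero =>
    intro h
    have e1 : V (C s) π (0 + m + 1 + 2) =
        C s * V (C s) π (0 + m + 1 + 1) - π * V (C s) π (0 + m + 1) := rfl
    have e2 : V (C s) π (0 + 2) = C s * 1 - π * 0 := rfl
    have e3 : V (C s) π (0 + 1) = 1 := rfl
    rw [e1, e2, e3] at h
    have h2 : π * V (C s) π (0 + m + 1) = 0 := by linear_combination -h
    rcases mul_eq_zero.mp h2 with h3 | h3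
    · exact hπ h3
    · exact V_ne_zero s hs π c₀ h0 (0 + m) h3
  | succ k ih =>
    intro h
    apply ih
    have e1 : V (C s) π (k + 1 + m + 1 + 2) =
        C s * V (C s) π (k + 1 + m + 1 + 1) - π * V (C s) π (k + 1 + m + 1) := rfl
    have e2 : V (C s) π (k + 1 + 2) = C s * V (C s) π (k + 1 + 1) - π * V (C s) π (k + 1) := rfl
    have e3 : k + 1 + m + 1 + 1 = k + m + 1 + 2 := by ring
    have e4 : k + 1 + m + 1 = k + m + 1 + 1 := by ring
    rw [e1, e2, e3, e4] at h
    have h2 : π * (V (C s) π (k + 1) * V (C s) π (k + m + 1 + 2)) =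
        π * (V (C s) π (k + m + 1 + 1) * V (C s) π (k + 2)) := by
      have e5 : k + 1 + 1 = k + 2 := rfl
      rw [e5] at h
      linear_combination h
    exact mul_left_cancel₀ hπ h2

theorem xk_injective (s : K) (hs : s ≠ 0) (π : K[X]) (c₀ : K) (h0 : π.eval c₀ = 0) (hπ : π ≠ 0) :
    Function.Injective (xk (C s) π) := by
  have main : ∀ i j : ℕ, i < j → xk (C s) π i ≠ xk (C s) π j := by
    intro i j hij h
    obtain ⟨m, rfl⟩ : ∃ m, j = i + m + 1 := ⟨j - i - 1, by omega⟩
    have hV1 : algebraMap K[X] (RatFunc K) (V (C s) π (i + 2)) ≠ 0 := by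
      rw [Ne, FaithfulSMul.algebraMap_eq_zero_iff]
      exact V_ne_zero s hs π c₀ h0 (i + 1)
    have hV2 : algebraMap K[X] (RatFunc K) (V (C s) π (i + m + 1 + 2)) ≠ 0 := by
      rw [Ne, FaithfulSMul.algebraMap_eq_zero_iff]
      exact V_ne_zero s hs π c₀ h0 (i + m + 1 + 1)
    rw [xk, xk, div_eq_div_iff hV1 hV2, ← map_mul, ← map_mul] at h
    have h2 := RatFunc.algebraMap_injective K h
    apply cross_ne s hs π c₀ h0 hπ m i
    have h3 : π * (V (C s) π (i + 1) * V (C s) π (i + m + 1 + 2)) =
        π * (V (C s) π (i + m + 1 + 1) * V (C s) π (i + 2)) := by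
      linear_combination -h2
    exact mul_left_cancel₀ hπ h3
  intro i j hij
  rcases lt_trichotomy i j with h | h | h
  · exact absurd hij (main i j h)
  · exact h
  · exact absurd hij.symm (main j i h)

/-- A point with portrait `(1, 1)` for `z^2 + c` satisfies `y^2 + y + c = 0`, and is not the
fixed point `0` of `z^2`. -/
theorem portrait_one_one (c y : K) (h : HasPortrait (fun z : K => z ^ 2 + c) y 1 1) :
    y ^ 2 + 1 * y + c = 0 ∧ ¬ (c = 0 ∧ y = 0) := by
  obtain ⟨h1, -, h3⟩ := h
  simp only [one_ne_zero, false_or, Nat.sub_self, Function.iterate_zero, id_eq] at h3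
  have hfix : y ^ 2 + c ≠ y := by
    intro hf
    apply h3
    rw [Function.mem_periodicPts]
    refine ⟨1, one_pos, ?_⟩
    simpa [Function.IsPeriodicPt, Function.IsFixedPt] using hf
  constructor
  · simp only [Function.iterate_succ, Function.iterate_zero, Function.comp_apply, id_eq,
      Nat.reduceAdd] at h1
    have : (y ^ 2 + c - y) * (y ^ 2 + 1 * y + c) = 0 := by linear_combination h1
    rcases mul_eq_zero.mp this with h | h
    · exact absurd (sub_eq_zero.mp h) hfix
    · exact h
  · rintro ⟨hc, hy⟩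
    exact hfix (by rw [hc, hy]; ring)

/-- A point with portrait `(1, 2)` for `z^2 + c` satisfies `y^2 - y + c + 1 = 0`, and is not the
point `0` when `c = -1`. -/
theorem portrait_one_two (c y : K) (h : HasPortrait (fun z : K => z ^ 2 + c) y 1 2) :
    y ^ 2 + (-1) * y + (c + 1) = 0 ∧ ¬ (c + 1 = 0 ∧ y = 0) := by
  obtain ⟨h1, h2, h3⟩ := h
  simp only [one_ne_zero, false_or, Nat.sub_self, Function.iterate_zero, id_eq] at h3
  have h2' := h2 1 one_pos (by norm_num)
  have hper : (y ^ 2 + c) ^ 2 + c ≠ y := by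
    intro hf
    apply h3
    rw [Function.mem_periodicPts]
    refine ⟨2, by norm_num, ?_⟩
    simpa [Function.IsPeriodicPt, Function.IsFixedPt] using hf
  constructor
  · simp only [Function.iterate_succ, Function.iterate_zero, Function.comp_apply, id_eq,
      Nat.reduceAdd, ne_eq] at h1 h2'
    have h4 : ((y ^ 2 + c) ^ 2 + c - y) * ((y ^ 2 + c) ^ 2 + c + y) = 0 := by
      linear_combination h1
    rcases mul_eq_zero.mp h4 with h | h
    · exact absurd (sub_eq_zero.mp h) hper
    · have h5 : (y ^ 2 + y + c) * (y ^ 2 + (-1) * y + (c + 1)) = 0 := by linear_combination h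
      rcases mul_eq_zero.mp h5 with h6 | h6
      · exfalso
        apply h2'
        linear_combination (y ^ 2 + c - y) * h6
      · exact h6
  · rintro ⟨hc, hy⟩
    apply hper
    rw [hy]
    linear_combination c * hc

theorem exceptional_one (k : ℕ) : Exceptional K (xk (C 1) X k) 1 1 2 := by
  refine ⟨xk_nonconst 1 one_ne_zero X 0 (by simp) X_ne_zero k, le_refl _, le_refl _, ?_⟩
  rintro ⟨c, hc, hp⟩
  obtain ⟨h1, h2⟩ := portrait_one_one _ _ hp
  have h3 := key 1 one_ne_zero X 0 (by simp) k c hc (by simpa using h1)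
  exact h2 (by simpa using h3)

theorem X_add_one_ne_zero : (X + 1 : K[X]) ≠ 0 := by
  have := X_add_C_ne_zero (1 : K)
  simpa using this

theorem exceptional_two (k : ℕ) : Exceptional K (xk (C (-1)) (X + 1) k) 1 2 2 := by
  refine ⟨xk_nonconst (-1) (by simp) (X + 1) (-1) (by simp) X_add_one_ne_zero k, by norm_num,
    le_refl _, ?_⟩
  rintro ⟨c, hc, hp⟩
  obtain ⟨h1, h2⟩ := portrait_one_two _ _ hp
  have h3 := key (-1) (by simp) (X + 1) (-1) (by simp) k c hc (by simpa using h1)
  exact h2 (by simpa using h3)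

/-- `x_0 = -t` for `N = 1` is the known exceptional point. -/
theorem example_one_zero : xk (C (1 : K)) X 0 = -RatFunc.X := by
  simp [xk, V]

/-- `x_1 = t / (t - 1)` for `N = 1`: a new exceptional point. -/
theorem example_one_one : xk (C (1 : K)) X 1 = RatFunc.X / (RatFunc.X - 1) := by
  have h : (RatFunc.X - 1 : RatFunc K) = -(1 - RatFunc.X) := by ring
  rw [h, div_neg]
  simp [xk, V, neg_div]

/-- `x_0 = t + 1` for `N = 2` is the known exceptional point. -/
theorem example_two_zero : xk (C (-1 : K)) (X + 1) 0 = RatFunc.X + 1 := by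
  simp [xk, V]
  ring

/-- `x_1 = -(t + 1) / t` for `N = 2`: a new exceptional point. -/
theorem example_two_one : xk (C (-1 : K)) (X + 1) 1 = -(RatFunc.X + 1) / RatFunc.X := by
  have hV : (V (C (-1 : K)) (X + 1) 3) = -X := by
    simp only [V]
    rw [C_neg, C_1]
    ring
  have hV2 : (V (C (-1 : K)) (X + 1) 2) = -1 := by
    simp only [V]
    rw [C_neg, C_1]
    ring
  have h : xk (C (-1 : K)) (X + 1) 1 =
      algebraMap K[X] (RatFunc K) (-((X + 1) * -1)) / algebraMap K[X] (RatFunc K) (-X) := by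
    rw [← hV, ← hV2]
    rfl
  rw [h]
  simp [div_neg]
  ring

/-- The explicit new exceptional tuple `(t / (t - 1), 1, 1, 2)`. -/
theorem exceptional_example : Exceptional K (RatFunc.X / (RatFunc.X - 1)) 1 1 2 := by
  rw [← example_one_one]; exact exceptional_one 1

/-- The explicit new exceptional tuple `(-(t + 1) / t, 1, 2, 2)`. -/
theorem exceptional_example_two : Exceptional K (-(RatFunc.X + 1) / RatFunc.X) 1 2 2 := by
  rw [← example_two_one]; exact exceptional_two 1

end

/-- **There are infinitely many exceptional tuples.**  Let `K` be an algebraically closed field of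
characteristic zero.  There are infinitely many `x` such that `(x, 1, 1, 2)` is exceptional, and
infinitely many `x` such that `(x, 1, 2, 2)` is exceptional.  In particular there are exceptional
tuples other than `(-t, 1, 1, 2)` and `(t + 1, 1, 2, 2)`. -/
theorem result (K : Type u) [Field K] [IsAlgClosed K] [CharZero K] :
    {x : RatFunc K | Exceptional K x 1 1 2}.Infinite ∧
    {x : RatFunc K | Exceptional K x 1 2 2}.Infinite := by
  have inj1 := xk_injective (K := K) 1 one_ne_zero X 0 (by simp) X_ne_zero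
  have inj2 := xk_injective (K := K) (-1) (by simp) (X + 1) (-1) (by simp) X_add_one_ne_zero
  refine ⟨?_, ?_⟩
  · exact (Set.infinite_range_of_injective inj1).mono
      (by rintro _ ⟨k, rfl⟩; exact exceptional_one k)
  · exact (Set.infinite_range_of_injective inj2).mono
      (by rintro _ ⟨k, rfl⟩; exact exceptional_two k)

end Pool.Agent.Results.MP_13ba09_nt.InfinitelyMany
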